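import Pool.Agent.U106.TR.Amp

/-!
# The exceptional extreme traces of `C*(ℤ² ⋉ ℤ[1/6])`

Let `G` be the group generated by `x ↦ 2 x`, `x ↦ 3 x`, `x ↦ x + 1` on `ℚ`, a copy of
`ℤ² ⋉ ℤ[1/6]`. Its traces are the normalised positive definite class functions. Let `E` be the set of
the exceptional traces: the extreme ones which are neither the regular trace nor conditionally
finite-dimensional. The question is whether `E` is empty.

1. Every `φ ∈ E` vanishes outside of the translations.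
2. For `m ≥ 1` let `α` be the endomorphism `(x ↦ a x + r) ↦ (x ↦ a x + m r)` of `G`. Then `φ ↦ φ ∘ α`
   maps `E` ONTO itself, at most `m` elements of `E` having the same image.
3. `E` is empty if and only if it is finite, if and only if it is closed (for pointwise convergence),
   if and only if the regular trace is not a limit of elements of `E`, if and only if the values
   of the elements of `E` at some translation `g ≠ 1` are bounded away from `0`, if and only if the
   regular trace is isolated among all traces `φ`, extreme or not, for which the mean of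
   `|φ (u ^ n)| ^ 2` is zero.

Proof. The traces of `G` which vanish outside of the translations are in bijection with the measures
on the circle invariant under `×2` and `×3`; the exceptional ones correspond to the atomless ergodic
measures other than Lebesgue measure, for which the corresponding theorem is
`MP_96e181_an.LocalRigidity`.
-/

set_option autoImplicit false

open MeasureTheory Filter Topology Set

namespace Pool.Agent.Results.MP_81910f_an.ExceptionalTraces

open Pool.Agent.U106.FC Pool.Agent.U106.TR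

/-- The trace has mean square zero on the powers of the translation by `1`. -/
def MeanZero (φ : G → ℂ) : Prop :=
  ∀ u : G, (∀ x : ℚ, (u : Equiv.Perm ℚ) x = x + 1) →
    Tendsto (fun N : ℕ => (N : ℝ)⁻¹ * ∑ n ∈ Finset.range N, ‖φ (u ^ n)‖ ^ 2) atTop (𝓝 0)

lemma pow_elt {u : G} (hu : ∀ x : ℚ, (u : Equiv.Perm ℚ) x = x + 1) (n : ℕ) :
    sl (u ^ n) = 1 ∧ of (u ^ n) = n := by
  have h1 : sl u = 1 := (trans_iff u).1 ⟨1, hu⟩
  have h2 : of u = 1 := by rw [of, hu]; ring
  induction n with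
  | zero => simp [sl_one, of_one]
  | succ k ih =>
    rw [pow_succ, sl_mul, of_mul, h1, h2, ih.1, ih.2]
    constructor
    · norm_num
    · push_cast; ring

/-- **The exceptional extreme traces of `C*(ℤ² ⋉ ℤ[1/6])`.** -/
theorem result :
    (∀ φ : G → ℂ, Exc φ → ∀ g : G, ¬ Trans g → φ g = 0) ∧
    (∀ m : ℕ, 1 ≤ m → ∃ α : G →* G,
      (∀ (g : G) (x : ℚ), (α g : Equiv.Perm ℚ) (m * x) = m * (g : Equiv.Perm ℚ) x) ∧
      ∀ φ : G → ℂ, Exc φ → Exc (φ ∘ α) ∧ 1 ≤ {ψ : G → ℂ | Exc ψ ∧ ψ ∘ α = φ}.encard ∧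
        {ψ : G → ℂ | Exc ψ ∧ ψ ∘ α = φ}.encard ≤ m) ∧
    List.TFAE [∀ φ ∈ Set.extremePoints ℝ Traces, φ = reg ∨ FinDim φ,
      {φ : G → ℂ | Exc φ}.Finite,
      IsClosed {φ : G → ℂ | Exc φ},
      reg ∉ closure {φ : G → ℂ | Exc φ},
      ∃ g : G, g ≠ 1 ∧ Trans g ∧ ∃ ε : ℝ, 0 < ε ∧ ∀ φ : G → ℂ, Exc φ → ε ≤ ‖φ g‖,
      ∃ U ∈ 𝓝 reg, ∀ φ ∈ Traces, φ ∈ U → MeanZero φ → φ = reg] := by
  have hkey : (¬ ∃ φ : G → ℂ, Exc φ) ↔ ∀ φ ∈ Set.extremePoints ℝ Traces, φ = reg ∨ FinDim φ := by
    constructor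
    · intro h φ hφ
      by_contra hcon
      push Not at hcon
      exact h ⟨φ, hφ, hcon.1, hcon.2⟩
    · rintro h ⟨φ, h1, h2, h3⟩
      rcases h φ h1 with h4 | h4
      · exact h2 h4
      · exact h3 h4
  refine ⟨?_, ?_, ?_⟩
  · intro φ hφ g hg
    obtain ⟨μ, -, rfl⟩ := exc_meas hφ
    rw [traceOf, if_neg (fun h => hg ((trans_iff g).2 h))]
  · intro m hm
    refine ⟨amp m hm, amp_apply m hm, fun φ hφ => ?_⟩
    obtain ⟨μ, hμ, rfl⟩ := exc_meas hφ
    have hi : Inv μ := ⟨hμ.2.2.1, hμ.2.2.2.1⟩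
    have hprob := hμ.1
    have hset : {ψ : G → ℂ | Exc ψ ∧ ψ ∘ amp m hm = traceOf μ} =
        traceOf '' {κ : Measure UnitAddCircle | Exceptional 2 3 κ ∧ κ.map (mul m) = μ} := by
      ext ψ
      constructor
      · rintro ⟨h1, h2⟩
        obtain ⟨κ, hκ, rfl⟩ := exc_meas h1
        have hki : Inv κ := ⟨hκ.2.2.1, hκ.2.2.2.1⟩
        have hkp := hκ.1
        have hkm : IsProbabilityMeasure (κ.map (mul m)) :=
          Measure.isProbabilityMeasure_map (cont_mul _).measurable.aemeasurable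
        rw [traceOf_amp hki] at h2
        exact ⟨κ, ⟨hκ, traceOf_inj (inv_map hki m) hi h2⟩, rfl⟩
      · rintro ⟨κ, ⟨hκ, h2⟩, rfl⟩
        have hki : Inv κ := ⟨hκ.2.2.1, hκ.2.2.2.1⟩
        exact ⟨exc_traceOf hκ, by rw [traceOf_amp hki, h2]⟩
    refine ⟨?_, ?_, ?_⟩
    · rw [traceOf_amp hi]
      exact exc_traceOf (exceptional_map le_rfl hm hμ)
    · rw [Set.one_le_encard_iff_nonempty, hset]
      obtain ⟨κ, hκ⟩ := exists_exceptional_lift hm hμ
      exact ⟨_, κ, hκ, rfl⟩
    · rw [hset]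
      exact (Set.encard_image_le _ _).trans (fibre_card hm μ)
  rw [← hkey]
  -- from an exceptional trace to exceptional traces near the regular one
  have hacc : ∀ φ : G → ℂ, Exc φ → ∃ ψ : ℕ → G → ℂ, (∀ K, Exc (ψ K)) ∧
      (∀ K, MeanZero (ψ K)) ∧ Tendsto ψ atTop (𝓝 reg) := by
    intro φ hφ
    obtain ⟨μ, hμ, rfl⟩ := exc_meas hφ
    have hi : Inv μ := ⟨hμ.2.2.1, hμ.2.2.2.1⟩
    have hprob := hμ.1
    obtain ⟨m, hm1, hm⟩ := tendsto_reg hi hμ.2.1
    refine ⟨fun K => traceOf (μ.map (mul (m K))),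
      fun K => exc_traceOf (exceptional_map le_rfl (hm1 K) hμ), fun K => ?_, hm⟩
    intro u hu
    have hex := exceptional_map le_rfl (hm1 K) hμ
    have hp := hex.1
    have h1 := wiener_atomless hex.2.1
    refine h1.congr fun N => ?_
    congr 1
    refine Finset.sum_congr rfl fun n _ => ?_
    change _ = ‖traceOf (μ.map (mul (m K))) (u ^ n)‖ ^ 2
    rw [co_eq (n := n) (inv_map hi _) (pow_elt hu n).1 (by rw [(pow_elt hu n).2]; simp)]
  tfae_have 1 → 2 := by
    intro h
    have : {φ : G → ℂ | Exc φ} = ∅ := by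
      ext φ
      simp only [mem_ofPred_eq, mem_empty_iff_false, iff_false]
      exact fun hφ => h ⟨_, hφ⟩
    rw [this]
    exact Set.finite_empty
  tfae_have 2 → 3 := fun h => h.isClosed
  tfae_have 3 → 4 := by
    intro h
    rw [h.closure_eq]
    exact fun h => h.2.1 rfl
  tfae_have 4 → 1 := by
    rintro h ⟨φ, hφ⟩
    obtain ⟨ψ, h1, -, h3⟩ := hacc φ hφ
    exact h (mem_closure_of_tendsto h3 (Eventually.of_forall h1))
  tfae_have 1 → 5 := by
    intro h
    obtain ⟨g, h1, h2⟩ := exists_elt 1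
    refine ⟨g, ?_, (trans_iff g).2 h1, 1, one_pos, fun φ hφ => absurd ⟨φ, hφ⟩ h⟩
    rintro rfl
    rw [of_one] at h2
    norm_num at h2
  tfae_have 5 → 1 := by
    rintro ⟨g, hg1, -, ε, hε, h⟩ ⟨φ, hφ⟩
    obtain ⟨ψ, h1, -, h3⟩ := hacc φ hφ
    have h4 := (tendsto_pi_nhds.1 h3 g).norm
    rw [reg, Set.indicator_of_notMem (by simpa using hg1), norm_zero] at h4
    exact absurd (ge_of_tendsto' h4 fun K => h _ (h1 K)) (not_le.2 hε)
  tfae_have 1 → 6 := by
    intro h
    refine ⟨univ, univ_mem, fun φ hφ _ hm => ?_⟩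
    obtain ⟨μ, hp, hi, ht, hv, -, -⟩ := exists_meas' hφ
    have hat : ∀ x, μ {x} = 0 := by
      apply atomless_of_wiener
      obtain ⟨u, h1, h2⟩ := exists_elt 1
      have hu : ∀ x : ℚ, (u : Equiv.Perm ℚ) x = x + 1 := fun x => by
        rw [gapply, h1, h2]; push_cast; ring
      refine (hm u hu).congr fun N => ?_
      congr 1
      refine Finset.sum_congr rfl fun n _ => ?_
      have h3 := pow_elt hu n
      rw [ht _ h3.1, co_eq (n := n) hi h3.1 (by rw [h3.2]; simp)]
    have hvol : μ = volume := by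
      by_contra hne
      obtain ⟨κ, hκ⟩ := exists_exceptional (p := 2) (q := 3) le_rfl hat hi.1 hi.2 hne
      exact h ⟨_, exc_traceOf hκ⟩
    rw [hv hat]
    funext g
    by_cases hg1 : g = 1
    · rw [hg1, traceOf_one hi, reg, Set.indicator_of_mem (by simp)]
    · rw [reg, Set.indicator_of_notMem (by simpa using hg1)]
      by_cases hg : sl g = 1
      · obtain ⟨n, k, hr⟩ := of_six g
        rw [traceOf, if_pos hg, val_eq hi hr, hvol]
        apply co_vol
        rintro rfl
        apply hg1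
        exact ext' (by rw [hg, sl_one]) (by rw [hr, of_one]; simp)
      · rw [traceOf, if_neg hg]
  tfae_have 6 → 1 := by
    rintro ⟨U, hU, h⟩ ⟨φ, hφ⟩
    obtain ⟨ψ, h1, h2, h3⟩ := hacc φ hφ
    obtain ⟨K, hK⟩ := (h3.eventually_mem hU).exists
    exact (h1 K).2.1 (h _ (h1 K).1.1 hK (h2 K))
  tfae_finish

end Pool.Agent.Results.MP_81910f_an.ExceptionalTraces
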