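import Pool.Agent.U349.OT.HullT

/-!
# There are no one-sided inequalities for the exceptional traces of `C*(ℤ² ⋉ ℤ[1/6])`

Let `G` be the group generated by `x ↦ 2 x`, `x ↦ 3 x`, `x ↦ x + 1` on `ℚ`, a copy of
`ℤ² ⋉ ℤ[1/6]`. The tracial states of `C*(G)` are the normalised positive definite class functions `φ` on
`G`; the spectral measure of `g ∈ G` for `φ` is the probability measure `μ` on the circle `ℝ / ℤ` with
`φ (g ^ n) = ∫ e (n x) dμ (x)`, so `∫ f dμ` is the value of `φ` at `f (g)`, for bounded Borel functions `f`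
on the circle. The exceptional traces are the extreme ones which are neither the regular trace `Δ` nor
conditionally finite-dimensional; the question is whether there are none.

1. Let `φ` be an exceptional trace, `h_1, ..., h_m ∈ G`, `g_1, ..., g_n ≠ 1` translations, `f_1, ..., f_n` real
   functions of bounded variation. There are finitely many exceptional traces `ψ_j` and weights `t > 0`,
   `w_j ≥ 0`, `t + ∑ w_j = 1`, such that `t φ + ∑ w_j ψ_j` has the same values as `Δ` at all elements `h_k` and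
   `f_i (g_i)`. So a suitable mean of exceptional traces, with positive weight at a given one, cannot be
   distinguished from the regular trace by finitely many such values.
   In particular let `a = c + ∑ f_i (g_i)`, `c` in the group algebra of `G`. If `Re φ (a) ≥ Re Δ (a)` for all
   exceptional traces `φ`, then `Re φ (a) = Re Δ (a)` for all of them. So if there is an exceptional trace with
   `Re φ (a) > Re Δ (a)`, there is another one with `Re φ (a) < Re Δ (a)`.
2. Let `g ≠ 1` be a translation and `f` a function of bounded variation. If the sums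
   `∑_{i,j ≥ 0} f^ (n 2 ^ i 3 ^ j)` of its Fourier coefficients vanish for all `n` prime to `6`, then
   `φ (f (g)) = Δ (f (g))` for all traces of mean zero, extreme or not. Otherwise: there are no
   exceptional traces iff `φ (f (g)) ≥ Δ (f (g))` for all of them, iff `φ (f (g)) ≤ Δ (f (g))` for all of
   them, iff all traces of mean zero have `φ (f (g)) = Δ (f (g))`.
3. The second case holds for the spectral projections `1_J (g)`, where `J` is a finite union of arcs, or a
   Borel set whose indicator function has bounded variation, of length `|J| ≠ 0, 1`: then there are no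
   exceptional traces iff all have `φ (1_J (g)) ≥ |J|`, and so on.
4. Let `g ≠ 1` be a translation and `z ≠ 0` a complex number. There are no exceptional traces iff all
   have `Re (z φ (g)) ≥ 0`. So otherwise the values of the exceptional traces at `g` are contained in
   no closed half plane bounded by a line through `0`.

Proof of the second part of 1 (for one `f`, `g = x + 1`, `c = 0`). The exceptional traces are the ergodic atomless
measures `μ` on the circle, other than Lebesgue measure `λ`, invariant under `x ↦ 2 x` and `x ↦ 3 x`; let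
`W (μ) = ∫ f dμ - ∫ f dλ`. Up to a countable set `f` is a constant plus `∫ saw (x - t) dθ (t)` for a
finite signed measure `θ`, `saw` the sawtooth function `{x} - 1/2`. Let `N` be prime to `6`. The mean `μ'` of
the translates of `μ` by the `j / N`, `0 < j < N`, is an atomless invariant measure, and
`(N - 1) W (μ') = C_N (μ) - W (μ)`, `C_N (μ) = ∫∫ saw (N (x - t)) dμ (x) dθ (t)`, by the distribution
relation of the sawtooth function. By ergodic decomposition `W (μ') ≥ 0`. So `0 ≤ W (μ) ≤ C_N (μ)`; but the mean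
of the `C_N (μ)` over the `N = 6 m + 1 ≤ X` tends to zero as `X → ∞`, because the multiples `N (x - t)` are
equidistributed if `x - t` is not a point of finite order. The element `c` contributes
`-(N - 1)⁻¹ (Re φ (c) - Re Δ (c))` for large `N`. The first part of 1 follows by the separation theorem.
2 and 3 use the theorem `MP_e27144_an.OneIntegral` of helper798: Furstenberg's conjecture follows from
equality for one nontrivial `f` and all atomless invariant measures (the file `OT/OI` is a copy of its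
last part).
-/

set_option autoImplicit false

open MeasureTheory Filter Topology

namespace Pool.Agent.Results.MP_81910f_an.OneSidedTraces

open Pool.Agent.U106.TR (G Traces reg FinDim Trans Exc)

/-- `μ` is the spectral measure of `g` for the trace `φ`. -/
def Spectral (φ : G → ℂ) (g : G) (μ : Measure UnitAddCircle) : Prop :=
  IsProbabilityMeasure μ ∧ ∀ n : ℤ, φ (g ^ n) = ∫ x, (fourier n x : ℂ) ∂μ

/-- The real part of the value of `φ` at the element `∑ c g * u_g` of the group algebra. -/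
noncomputable def value (φ : G → ℂ) (c : G →₀ ℂ) : ℝ := (c.sum fun g z => z * φ g).re

/-- The trace has mean square zero on the powers of the translation by `1`. -/
def MeanZero (φ : G → ℂ) : Prop :=
  ∀ u : G, (∀ x : ℚ, (u : Equiv.Perm ℚ) x = x + 1) →
    Tendsto (fun N : ℕ => (N : ℝ)⁻¹ * ∑ n ∈ Finset.range N, ‖φ (u ^ n)‖ ^ 2) atTop (𝓝 0)

/-- Functions of bounded variation on the circle. -/
def BV (f : UnitAddCircle → ℝ) : Prop :=
  BoundedVariationOn (fun t : ℝ => f (t : UnitAddCircle)) (Set.Icc 0 1)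

/-- The sums of the Fourier coefficients of `f` with the indices `n 2 ^ i 3 ^ j`, `i, j ≥ 0`, vanish for
all `n` prime to `6`. -/
def Triv (f : UnitAddCircle → ℝ) : Prop :=
  ∀ n : ℤ, ¬ (2 : ℤ) ∣ n → ¬ (3 : ℤ) ∣ n →
    ∑' ij : ℕ × ℕ, fourierCoeff (fun x => ((f x : ℝ) : ℂ)) (n * 2 ^ ij.1 * 3 ^ ij.2) = 0

/-- The arc of the circle from `α` (included) to `β` (excluded). -/
def arc (α β : ℝ) : Set UnitAddCircle := (fun t : ℝ => (t : UnitAddCircle)) '' Set.Ico α β

lemma triv_iff (f : UnitAddCircle → ℝ) : Triv f ↔ Pool.Agent.U349.OT.OI.Triv 2 3 f := by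
  unfold Triv Pool.Agent.U349.OT.OI.Triv Pool.Agent.U349.OT.OI.A
  simp only [Nat.cast_ofNat]

open Pool.Agent.U349.OT Pool.Agent.U106.FC in
lemma exc_iff {g : G} (hg : Trans g) {P : (G → ℂ) → Measure UnitAddCircle → Prop} :
    (∀ φ : G → ℂ, Exc φ → ∀ μ : Measure UnitAddCircle, Spectral φ g μ → P φ μ) ↔
      ∀ κ : Measure UnitAddCircle, Exceptional 2 3 κ → P (Pool.Agent.U106.TR.traceOf κ) (κ.map (zm (nn g))) := by
  have hs := (Pool.Agent.U106.TR.trans_iff g).1 hg
  constructor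
  · intro h κ hκ
    exact h _ (Pool.Agent.U106.TR.exc_traceOf hκ) _ (specAt_of hκ.1 ⟨hκ.2.2.1, hκ.2.2.2.1⟩ (fun _ _ => rfl) hs)
  · intro h φ hφ μ hμ
    obtain ⟨κ, hκ, rfl⟩ := Pool.Agent.U106.TR.exc_meas hφ
    have e : μ = κ.map (zm (nn g)) :=
      specAt_unique hμ (specAt_of hκ.1 ⟨hκ.2.2.1, hκ.2.2.2.1⟩ (fun _ _ => rfl) hs)
    rw [e]
    exact h κ hκ

open Pool.Agent.U349.OT Pool.Agent.U106.FC in
lemma exc_iff' {P : (G → ℂ) → Prop} :
    (∀ φ : G → ℂ, Exc φ → P φ) ↔
      ∀ κ : Measure UnitAddCircle, Exceptional 2 3 κ → P (Pool.Agent.U106.TR.traceOf κ) := by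
  constructor
  · intro h κ hκ
    exact h _ (Pool.Agent.U106.TR.exc_traceOf hκ)
  · intro h φ hφ
    obtain ⟨κ, hκ, rfl⟩ := Pool.Agent.U106.TR.exc_meas hφ
    exact h κ hκ

open Pool.Agent.U349.OT Pool.Agent.U106.FC in
lemma exc_iff_fin {n : ℕ} {g : Fin n → G} (hg : ∀ i, Trans (g i))
    {P : (G → ℂ) → (Fin n → Measure UnitAddCircle) → Prop} :
    (∀ φ : G → ℂ, Exc φ → ∀ μ : Fin n → Measure UnitAddCircle, (∀ i, Spectral φ (g i) (μ i)) → P φ μ) ↔
      ∀ κ : Measure UnitAddCircle, Exceptional 2 3 κ →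
        P (Pool.Agent.U106.TR.traceOf κ) (fun i => κ.map (zm (nn (g i)))) := by
  have hs := fun i => (Pool.Agent.U106.TR.trans_iff (g i)).1 (hg i)
  constructor
  · intro h κ hκ
    exact h _ (Pool.Agent.U106.TR.exc_traceOf hκ) _ fun i =>
      specAt_of hκ.1 ⟨hκ.2.2.1, hκ.2.2.2.1⟩ (fun _ _ => rfl) (hs i)
  · intro h φ hφ μ hμ
    obtain ⟨κ, hκ, rfl⟩ := Pool.Agent.U106.TR.exc_meas hφ
    have e : μ = fun i => κ.map (zm (nn (g i))) := by
      funext i
      exact specAt_unique (hμ i) (specAt_of hκ.1 ⟨hκ.2.2.1, hκ.2.2.2.1⟩ (fun _ _ => rfl) (hs i))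
    rw [e]
    exact h κ hκ

open Pool.Agent.U349.OT Pool.Agent.U106.FC in
lemma none_iff : (∀ φ ∈ Set.extremePoints ℝ Traces, φ = reg ∨ FinDim φ) ↔
    ∀ κ : Measure UnitAddCircle, ¬ Exceptional 2 3 κ := by
  constructor
  · intro h κ hκ
    obtain ⟨h1, h2, h3⟩ := Pool.Agent.U106.TR.exc_traceOf hκ
    rcases h _ h1 with h4 | h4
    · exact h2 h4
    · exact h3 h4
  · intro h φ hφ
    by_contra hcon
    push Not at hcon
    obtain ⟨κ, hκ, -⟩ := Pool.Agent.U106.TR.exc_meas (φ := φ) ⟨hφ, hcon.1, hcon.2⟩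
    exact h κ hκ

lemma nn_ne {g : G} (hg : Trans g) (hg1 : g ≠ 1) : Pool.Agent.U349.OT.nn g ≠ 0 := fun h =>
  hg1 (Pool.Agent.U349.OT.nn_zero ((Pool.Agent.U106.TR.trans_iff g).1 hg) h)

/-- one function -/
theorem one_function {g : G} (hg : Trans g) (hg1 : g ≠ 1) {f : UnitAddCircle → ℝ} (hf : BV f) (ht : ¬ Triv f) :
    List.TFAE [∀ φ ∈ Set.extremePoints ℝ Traces, φ = reg ∨ FinDim φ,
      ∀ φ : G → ℂ, Exc φ → ∀ μ : Measure UnitAddCircle, Spectral φ g μ → ∫ x, f x ≤ ∫ x, f x ∂μ,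
      ∀ φ : G → ℂ, Exc φ → ∀ μ : Measure UnitAddCircle, Spectral φ g μ → ∫ x, f x ∂μ ≤ ∫ x, f x,
      ∀ φ ∈ Traces, MeanZero φ → ∀ μ : Measure UnitAddCircle, Spectral φ g μ →
        ∫ x, f x ∂μ = ∫ x, f x] := by
  rw [none_iff, exc_iff hg, exc_iff hg]
  have hn := nn_ne hg hg1
  have hs := (Pool.Agent.U106.TR.trans_iff g).1 hg
  rw [triv_iff] at ht
  have hdec := Pool.Agent.U349.OT.OI.dec_case Nat.prime_two Nat.prime_three (by norm_num) f (Or.inl hf) ht
  tfae_have 1 → 2 := fun h κ hκ => absurd hκ (h κ)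
  tfae_have 1 → 3 := fun h κ hκ => absurd hκ (h κ)
  tfae_have 2 → 1 := fun h =>
    Pool.Agent.U349.OT.none_of_conj (hdec.1 (Pool.Agent.U349.OT.eq_of_ge hn hf h))
  tfae_have 3 → 1 := fun h =>
    Pool.Agent.U349.OT.none_of_conj (hdec.1 (Pool.Agent.U349.OT.eq_of_le hn hf h))
  tfae_have 1 → 4 := by
    intro h φ hφ hm μ hμ
    have e := Pool.Agent.U349.OT.mean_reg h hφ hm
    subst e
    rw [Pool.Agent.U349.OT.specAt_unique hμ (Pool.Agent.U349.OT.specAt_reg hs hn)]
  tfae_have 4 → 2 := by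
    intro h κ hκ
    have hi : Pool.Agent.U106.TR.Inv κ := ⟨hκ.2.2.1, hκ.2.2.2.1⟩
    have hp := hκ.1
    exact (h _ (Pool.Agent.U106.TR.traceOf_mem hi) (Pool.Agent.U349.OT.mean_exc hκ) _
      (Pool.Agent.U349.OT.specAt_of hp hi (fun _ _ => rfl) hs)).ge
  tfae_finish

/-- **No one-sided inequalities for the exceptional traces.** -/
theorem result :
    (∀ φ ∈ Traces, ∀ g : G, Trans g → ∃! μ : Measure UnitAddCircle, Spectral φ g μ) ∧
    (∀ (m n : ℕ) (h : Fin m → G) (f : Fin n → UnitAddCircle → ℝ) (g : Fin n → G),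
      (∀ i, BV (f i)) → (∀ i, Trans (g i)) → (∀ i, g i ≠ 1) → ∀ φ : G → ℂ, Exc φ →
      ∃ (ι : Type) (_ : Fintype ι) (t : ℝ) (w : ι → ℝ) (ψ : ι → G → ℂ),
        0 < t ∧ (∀ j, 0 ≤ w j) ∧ t + ∑ j, w j = 1 ∧ (∀ j, Exc (ψ j)) ∧
        (∀ k, (t : ℂ) * φ (h k) + ∑ j, (w j : ℂ) * ψ j (h k) = reg (h k)) ∧
        ∀ (i : Fin n) (μ : Measure UnitAddCircle) (ν : ι → Measure UnitAddCircle), Spectral φ (g i) μ →
          (∀ j, Spectral (ψ j) (g i) (ν j)) →
          t * ∫ x, f i x ∂μ + ∑ j, w j * ∫ x, f i x ∂(ν j) = ∫ x, f i x) ∧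
    (∀ (n : ℕ) (f : Fin n → UnitAddCircle → ℝ) (g : Fin n → G) (c : G →₀ ℂ),
      (∀ i, BV (f i)) → (∀ i, Trans (g i)) → (∀ i, g i ≠ 1) →
      (∀ φ : G → ℂ, Exc φ → ∀ μ : Fin n → Measure UnitAddCircle, (∀ i, Spectral φ (g i) (μ i)) →
        value reg c + ∑ i, ∫ x, f i x ≤ value φ c + ∑ i, ∫ x, f i x ∂(μ i)) →
      ∀ φ : G → ℂ, Exc φ → ∀ μ : Fin n → Measure UnitAddCircle, (∀ i, Spectral φ (g i) (μ i)) →
        value φ c + ∑ i, ∫ x, f i x ∂(μ i) = value reg c + ∑ i, ∫ x, f i x) ∧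
    (∀ g : G, Trans g → g ≠ 1 → ∀ f : UnitAddCircle → ℝ, BV f →
      (Triv f → ∀ φ ∈ Traces, MeanZero φ → ∀ μ : Measure UnitAddCircle, Spectral φ g μ →
        ∫ x, f x ∂μ = ∫ x, f x) ∧
      (¬ Triv f →
        List.TFAE [∀ φ ∈ Set.extremePoints ℝ Traces, φ = reg ∨ FinDim φ,
          ∀ φ : G → ℂ, Exc φ → ∀ μ : Measure UnitAddCircle, Spectral φ g μ → ∫ x, f x ≤ ∫ x, f x ∂μ,
          ∀ φ : G → ℂ, Exc φ → ∀ μ : Measure UnitAddCircle, Spectral φ g μ → ∫ x, f x ∂μ ≤ ∫ x, f x,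
          ∀ φ ∈ Traces, MeanZero φ → ∀ μ : Measure UnitAddCircle, Spectral φ g μ →
            ∫ x, f x ∂μ = ∫ x, f x])) ∧
    (∀ J : Set UnitAddCircle, MeasurableSet J → BV (J.indicator fun _ => (1 : ℝ)) →
      (volume : Measure UnitAddCircle).real J ≠ 0 → (volume : Measure UnitAddCircle).real J ≠ 1 →
      ¬ Triv (J.indicator fun _ => (1 : ℝ)) ∧
      ∀ g : G, Trans g → g ≠ 1 →
        List.TFAE [∀ φ ∈ Set.extremePoints ℝ Traces, φ = reg ∨ FinDim φ,
          ∀ φ : G → ℂ, Exc φ → ∀ μ : Measure UnitAddCircle, Spectral φ g μ →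
            (volume : Measure UnitAddCircle).real J ≤ μ.real J,
          ∀ φ : G → ℂ, Exc φ → ∀ μ : Measure UnitAddCircle, Spectral φ g μ →
            μ.real J ≤ (volume : Measure UnitAddCircle).real J,
          ∀ φ ∈ Traces, MeanZero φ → ∀ μ : Measure UnitAddCircle, Spectral φ g μ →
            μ.real J = (volume : Measure UnitAddCircle).real J]) ∧
    (∀ (n : ℕ) (α β : Fin n → ℝ), (∀ i, 0 ≤ α i ∧ β i ≤ 1) →
      MeasurableSet (⋃ i, arc (α i) (β i)) ∧ BV ((⋃ i, arc (α i) (β i)).indicator fun _ => (1 : ℝ))) ∧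
    (∀ g : G, Trans g → g ≠ 1 → ∀ z : ℂ, z ≠ 0 →
      ((∀ φ ∈ Set.extremePoints ℝ Traces, φ = reg ∨ FinDim φ) ↔
        ∀ φ : G → ℂ, Exc φ → 0 ≤ (z * φ g).re)) := by
  refine ⟨fun φ hφ g hg => ?_, fun m n h f g hf hg hg1 φ hφ => ?_, fun n f g c hf hg hg1 h => ?_, fun g hg hg1 f hf => ⟨fun ht => ?_, fun ht => ?_⟩,
    fun J hJm hJ h0 h1 => ?_, fun n α β h => ?_, fun g hg hg1 z hz => ?_⟩
  · obtain ⟨μ, hμ⟩ := Pool.Agent.U349.OT.exists_specAt hφ ((Pool.Agent.U106.TR.trans_iff g).1 hg)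
    exact ⟨μ, hμ, fun ν hν => Pool.Agent.U349.OT.specAt_unique hν hμ⟩
  · obtain ⟨κ, hκ, rfl⟩ := Pool.Agent.U106.TR.exc_meas hφ
    have hs := fun i => (Pool.Agent.U106.TR.trans_iff (g i)).1 (hg i)
    obtain ⟨ι, hι, t, w, κ', ht, hw, h1, hE, hA, hB⟩ :=
      Pool.Agent.U349.OT.hull_trace h (fun i => nn_ne (hg i) (hg1 i)) hf hκ
    refine ⟨ι, hι, t, w, fun j => Pool.Agent.U106.TR.traceOf (κ' j), ht, hw, h1,
      fun j => Pool.Agent.U106.TR.exc_traceOf (hE j), hA, fun i μ ν hμ hν => ?_⟩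
    have e1 : μ = κ.map (Pool.Agent.U349.OT.zm (Pool.Agent.U349.OT.nn (g i))) :=
      Pool.Agent.U349.OT.specAt_unique hμ
        (Pool.Agent.U349.OT.specAt_of hκ.1 ⟨hκ.2.2.1, hκ.2.2.2.1⟩ (fun _ _ => rfl) (hs i))
    have e2 : ∀ j, ν j = (κ' j).map (Pool.Agent.U349.OT.zm (Pool.Agent.U349.OT.nn (g i))) := fun j =>
      Pool.Agent.U349.OT.specAt_unique (hν j)
        (Pool.Agent.U349.OT.specAt_of (hE j).1 ⟨(hE j).2.2.1, (hE j).2.2.2.1⟩ (fun _ _ => rfl) (hs i))
    rw [e1]
    simp only [e2]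
    exact hB i
  · rw [exc_iff_fin hg] at h ⊢
    have hs : ∀ i, Pool.Agent.U349.OT.nn (g i) ≠ 0 := fun i => nn_ne (hg i) (hg1 i)
    have hW : ∀ κ : Measure UnitAddCircle,
        Pool.Agent.U349.OT.WB (fun i => Pool.Agent.U349.OT.nn (g i)) f c κ =
          (value (Pool.Agent.U106.TR.traceOf κ) c +
            ∑ i, ∫ x, f i x ∂(κ.map (Pool.Agent.U349.OT.zm (Pool.Agent.U349.OT.nn (g i))))) -
            (value reg c + ∑ i, ∫ x, f i x) := by
      intro κ
      unfold Pool.Agent.U349.OT.WB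
      rw [Finset.sum_sub_distrib]
      change _ + (value (Pool.Agent.U106.TR.traceOf κ) c - value reg c) = _
      ring
    have h1 := Pool.Agent.U349.OT.bvmix hs hf (c := c) (fun κ hκ => by
        rw [hW κ]
        exact sub_nonneg.2 (h κ hκ))
    intro κ hκ
    have h2 := h1 κ hκ
    rw [hW κ] at h2
    exact sub_eq_zero.1 h2
  · intro φ hφ hm μ hμ
    exact Pool.Agent.U349.OT.triv_mean
      (Pool.Agent.U349.OT.OI.triv_case Nat.prime_two Nat.prime_three (by norm_num) f (Or.inl hf) ((triv_iff f).1 ht))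
      hφ hm ((Pool.Agent.U106.TR.trans_iff g).1 hg) (nn_ne hg hg1) hμ
  · exact one_function hg hg1 hf ht
  · have hnt : ¬ Triv (J.indicator fun _ => (1 : ℝ)) := by
      rw [triv_iff]
      exact Pool.Agent.U349.OT.not_triv_set hJm hJ h0 h1
    refine ⟨hnt, fun g hg hg1 => ?_⟩
    have h2 := one_function hg hg1 hJ hnt
    have hint : ∀ μ : Measure UnitAddCircle, ∫ x, J.indicator (fun _ => (1 : ℝ)) x ∂μ = μ.real J := by
      intro μ
      rw [integral_indicator_const _ hJm, smul_eq_mul, mul_one]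
    simp_rw [hint] at h2
    exact h2
  · exact Pool.Agent.U349.OT.bv_arcs h
  · rw [none_iff, exc_iff']
    constructor
    · exact fun h κ hκ => absurd hκ (h κ)
    · exact fun h => Pool.Agent.U349.OT.none_of_dir ((Pool.Agent.U106.TR.trans_iff g).1 hg) (nn_ne hg hg1) hz h

end Pool.Agent.Results.MP_81910f_an.OneSidedTraces
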