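import Pool.Agent.U946.TD.Rig
import Pool.Agent.Results.MP_81910f_an.ExceptionalTraces

/-!
# A dichotomy for the extreme traces of `C*(ℤ² ⋉ ℤ[1/6])`

Let `G` be the group generated by `x ↦ 2 x`, `x ↦ 3 x`, `x ↦ x + 1` on `ℚ`, a copy of
`ℤ² ⋉ ℤ[1/6]`. Its traces are the normalised positive definite class functions. We prove that every
trace `φ` of mean zero (extreme or not), and every extreme trace which is not conditionally
finite-dimensional, has one of the following two properties, in terms of its GNS representation `π` and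
the norm `‖a‖₂ = φ(a* a)^{1/2}`:

* NO APPROXIMATE RELATIONS: for every polynomial `P ≠ 0` and every translation `g ≠ 1` the numbers
  `‖P(g ^ n)‖₂ ^ 2`, and also `1 - |φ(g ^ n)|`, are at least `c (log (|n| + 2)) ^ (-κ)` for ALL `n ≠ 0`,
  for every `κ > 0`;
* SUPER-RIGIDITY: there is one increasing sequence `m k` of integers such that
  `π(g ^ (j k * m k)) → 1` strongly for all translations `g` and all integers `j k` with
  `|j k| ≤ exp ((log (m k)) ^ k)`.

So a counterexample to the question is of one of the two kinds. The dichotomy for measures on the circle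
behind it is `MP_96e181_an.NonRigidOrThin` (helper161), the dictionary between traces and measures is
that of `MP_81910f_an.ExceptionalTraces` (helper106).
-/

set_option autoImplicit false

open MeasureTheory Filter Topology Set

namespace Pool.Agent.Results.MP_81910f_an.RigidityDichotomy

open Pool.Agent.U106.FC Pool.Agent.U106.TR Pool.Agent.U946.TD
open Pool.Agent.U946.TD.NR (Spread Thin fourier_of)
open Pool.Agent.Results.MP_81910f_an.ExceptionalTraces (MeanZero pow_elt)

/-- No approximate relations: `‖P(g ^ n)‖₂ ^ 2` and `1 - |φ(g ^ n)|` are at least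
`c (log (|n| + 2)) ^ (-κ)` for all `n ≠ 0`; here `‖P(g ^ n)‖₂ ^ 2` is
`∑ i, ∑ j, P_i * conj P_j * φ (g ^ (n * (i - j)))`. -/
def NoRelations (φ : G → ℂ) : Prop :=
  ∀ κ : ℝ, 0 < κ → ∀ g : G, Trans g → g ≠ 1 →
    (∃ c : ℝ, 0 < c ∧ ∀ n : ℤ, n ≠ 0 → c * Real.log (|(n : ℝ)| + 2) ^ (-κ) ≤ 1 - ‖φ (g ^ n)‖) ∧
    ∀ P : Polynomial ℂ, P ≠ 0 → ∃ c : ℝ, 0 < c ∧ ∀ n : ℤ, n ≠ 0 →
      c * Real.log (|(n : ℝ)| + 2) ^ (-κ) ≤
        (∑ i ∈ P.support, ∑ j ∈ P.support,
          P.coeff i * star (P.coeff j) * φ (g ^ (n * ((i : ℤ) - j)))).re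

/-- Super-rigidity: `φ (x * g ^ (j k * m k) * y) → φ (x * y)` for all `x`, `y`, all translations `g` and
all `|j k| ≤ exp ((log (m k)) ^ k)`, for one increasing sequence `m`. -/
def SuperRigid (φ : G → ℂ) : Prop :=
  ∃ m : ℕ → ℕ, StrictMono m ∧ ∀ j : ℕ → ℤ,
    (∀ k, |(j k : ℝ)| ≤ Real.exp (Real.log (m k) ^ k)) →
    ∀ g : G, Trans g → ∀ x y : G,
      Tendsto (fun k => φ (x * g ^ (j k * m k) * y)) atTop (𝓝 (φ (x * y)))

theorem dich {μ : Measure UnitAddCircle} [IsProbabilityMeasure μ] (hi : Inv μ)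
    (hat : ∀ x, μ {x} = 0) : NoRelations (traceOf μ) ∨ SuperRigid (traceOf μ) := by
  have h2 : Pool.Agent.H819.TwoGen 2 3 :=
    ⟨2, 3, 1, 0, 0, 1, by norm_num, by norm_num, by norm_num, by norm_num, by norm_num, by norm_num⟩
  rcases Pool.Agent.U946.TD.NR.main le_rfl (by norm_num) Pool.Agent.TH654.FC.irr23 h2 μ
    inferInstance hi.1 hi.2 hat with h4 | h4
  · left
    intro κ hκ g hg hg1
    have hs := (trans_iff g).1 hg
    obtain ⟨a, k, ha, hak⟩ := exists_int hs hg1
    refine ⟨?_, fun P hP => ?_⟩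
    · obtain ⟨c, hc, h5⟩ := fourier_of (h4 κ hκ)
      obtain ⟨c', hc', h6⟩ := transfer ha hκ hc (F := fun n => 1 - ‖co μ n‖) h5
      refine ⟨c', hc', fun n hn => ?_⟩
      rw [traceOf_zpow hi hs hak]
      exact h6 n hn
    · obtain ⟨c, hc, h5⟩ := poly_of (h4 κ hκ) hP
      obtain ⟨c', hc', h6⟩ := transfer ha hκ hc (F := fun n =>
        (∑ i ∈ P.support, ∑ j ∈ P.support, P.coeff i * star (P.coeff j) *
          co μ (n * ((i : ℤ) - j))).re) h5
      refine ⟨c', hc', fun n hn => ?_⟩
      refine (h6 n hn).trans (le_of_eq ?_)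
      congr 1
      refine Finset.sum_congr rfl fun i _ => Finset.sum_congr rfl fun j _ => ?_
      rw [traceOf_zpow hi hs hak]
      congr 2
      ring
  · right
    obtain ⟨m, hm, h5⟩ := rigid_trace hi h4
    exact ⟨m, hm, fun j hj g hg => h5 j hj g ((trans_iff g).1 hg)⟩

/-- **Dichotomy for the traces.** (1) Every trace of mean zero and (2) every extreme trace which is not
conditionally finite-dimensional has no approximate relations or is super-rigid. -/
theorem result :
    (∀ φ ∈ Traces, MeanZero φ → NoRelations φ ∨ SuperRigid φ) ∧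
    ∀ φ ∈ Set.extremePoints ℝ Traces, FinDim φ ∨ NoRelations φ ∨ SuperRigid φ := by
  refine ⟨fun φ hφ hm => ?_, fun φ hφ => ?_⟩
  · obtain ⟨μ, hp, hi, ht, hv, -, -⟩ := exists_meas' hφ
    have hat : ∀ x, μ {x} = 0 := by
      apply atomless_of_wiener
      obtain ⟨u, h1, h2⟩ := exists_elt 1
      have hu : ∀ x : ℚ, (u : Equiv.Perm ℚ) x = x + 1 := fun x => by
        rw [gapply, h1, h2]; push_cast; ring
      refine (hm u hu).congr fun N => ?_
      congr 1
      refine Finset.sum_congr rfl fun n _ => ?_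
      have h3 := pow_elt hu n
      rw [ht _ h3.1, co_eq (n := n) hi h3.1 (by rw [h3.2]; simp)]
    rw [hv hat]
    exact dich hi hat
  · obtain ⟨μ, hp, hi, ht, hv, -, hx⟩ := exists_meas' hφ.1
    rcases hx hφ with h | hat
    · exact Or.inl h
    · rw [hv hat]
      exact Or.inr (dich hi hat)

end Pool.Agent.Results.MP_81910f_an.RigidityDichotomy
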