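import Pool.Agent.U785.TP.E

/-!
# Extreme traces of `C*(ℤ² ⋉ ℤ[1/6])`: spectral projections on subgroups of dimension zero, joinings

Let `G` be the group generated by `x ↦ 2 x`, `x ↦ 3 x`, `x ↦ x + 1` on `ℚ`, a copy of
`ℤ² ⋉ ℤ[1/6]`. Its traces are the normalised positive definite class functions. For a trace `φ` and
`g ∈ G` let `μ` be the spectral measure of the unitary of `g`, the probability measure on `ℝ / ℤ`
with the coefficients `φ (g ^ n)`; so `μ (B)` is the trace of the spectral projection `1_B (g)`.

1. Given countably many extreme traces, none of them regular, and a countable set `C` of reals, there is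
   ONE `σ`-compact `ℚ`-subspace `V ∋ 1` of `ℝ` of Hausdorff dimension `0`, in which every point of `C` is
   rational, such that for each of the traces and EVERY translation `g ≠ 1` the projection of `g` on
   `V` modulo one has the trace `1` (for the regular trace it is `0`). For countably many arbitrary
   traces the spectral measures are multiples of Lebesgue measure outside of `V` modulo one.
2. If the spectral laws of `k` commuting unitaries, with an arbitrary joint law, are those of
   translations `g i ≠ 1` with respect to extreme, not regular traces, then the product of powers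
   `∏ U_i ^ (a i)` has an eigenvalue `e(t)` of mass at least `ε` only for `t` in a finite set of rational
   points which does not depend on the joint law.
3. Every extreme trace is regular or conditionally finite-dimensional if and only if for one (for every)
   translation `g ≠ 1` all the exceptional traces (equivalently all the traces of mean zero) vanish
   on all the projections `1_H (g)`, `H` a proper Borel subgroup of the circle.

The theorem on invariant measures is `MP_e27144_an.ProperSubspaces` (helper125). New here: all the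
translations at once, the extreme traces (the singularity of their spectral measures, the reduction to
ergodic measures), the dictionary.
-/

set_option autoImplicit false

open MeasureTheory
open scoped ENNReal

namespace Pool.Agent.Results.MP_81910f_an.SpectralSubgroups

open Pool.Agent.U106.TR (G Traces Trans reg FinDim Exc)
open Pool.Agent.U785.TP (MeanZero SpectralAt)

/-- **Spectral projections on subgroups of dimension zero, joinings.** -/
theorem result :
    (∀ φ : ℕ → G → ℂ, (∀ j, φ j ∈ Traces) → ∀ C : Set ℝ, C.Countable →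
      ∃ V : Submodule ℚ ℝ, (1 : ℝ) ∈ V ∧ IsSigmaCompact (V : Set ℝ) ∧ dimH (V : Set ℝ) = 0 ∧
        (∀ x ∈ C, x ∈ V → ∃ r : ℚ, x = r) ∧
        ∀ j, ∃ c : ℝ≥0∞, (φ j ∈ Set.extremePoints ℝ Traces → φ j ≠ reg → c = 0) ∧
          ∀ g : G, Trans g → g ≠ 1 → ∀ μ, SpectralAt (φ j) g μ →
            ∀ B : Set (AddCircle (1 : ℝ)), MeasurableSet B →
              (∀ r ∈ V, ((r : ℝ) : AddCircle (1 : ℝ)) ∉ B) → μ B = c * volume B) ∧
    (∀ (k : ℕ) (φ : Fin k → G → ℂ), (∀ i, φ i ∈ Set.extremePoints ℝ Traces) →
      (∀ i, φ i ≠ reg) → ∀ g : Fin k → G, (∀ i, Trans (g i)) → (∀ i, g i ≠ 1) →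
      ∀ (a : Fin k → ℤ) (ε : ℝ≥0∞), 0 < ε →
      ∃ F : Set (AddCircle (1 : ℝ)), F.Finite ∧ (∀ t ∈ F, IsOfFinAddOrder t) ∧
        ∀ (Ω : Type) [MeasurableSpace Ω] (P : Measure Ω) (X : Fin k → Ω → AddCircle (1 : ℝ)),
          (∀ i, Measurable (X i)) → (∀ i, SpectralAt (φ i) (g i) (P.map (X i))) →
          ∀ t ∉ F, P {ω | ∑ i, a i • X i ω = t} < ε) ∧
    (∀ g : G, Trans g → g ≠ 1 →
      List.TFAE [∀ φ ∈ Set.extremePoints ℝ Traces, φ = reg ∨ FinDim φ,
        ∀ φ, Exc φ → ∀ μ, SpectralAt φ g μ → ∀ H : AddSubgroup (AddCircle (1 : ℝ)),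
          MeasurableSet (H : Set (AddCircle (1 : ℝ))) → H ≠ ⊤ → μ (H : Set (AddCircle (1 : ℝ))) = 0,
        ∀ φ ∈ Traces, MeanZero φ → ∀ μ, SpectralAt φ g μ →
          ∀ H : AddSubgroup (AddCircle (1 : ℝ)), MeasurableSet (H : Set (AddCircle (1 : ℝ))) →
            H ≠ ⊤ → μ (H : Set (AddCircle (1 : ℝ))) = 0]) :=
  ⟨fun φ hφ _ hC => Pool.Agent.U785.TP.spaces φ hφ hC,
    fun _ φ hext hne g hg hg1 a _ hε => Pool.Agent.U785.TP.joined φ hext hne g hg hg1 a hε,
    fun _ hg hg1 => Pool.Agent.U785.TP.subgroups hg hg1⟩

end Pool.Agent.Results.MP_81910f_an.SpectralSubgroups
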